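import Pool.Agent.ANO5.A2.Idx.AnoA
import Pool.Agent.SmoothDegree.Homotopy

/-!
# ANO, module B: lifts of powers of the Anosov map (package IDX-ANO)

`T = g ∘ F^M`, `M > 0`. `P` is the family of projections in `IsAnosovLift`. Let `T q = q`,
`A = tmap T q`. `T^n = g' ∘ F^(M n)` (`exists_deck_pow`) and `A ^ n = tmap (T^n) q`
(`tmap_iterate`) `= tmap g' (F^(M n) q) ∘ tmap (F^(M n)) q`, so by `deck_tnorm` and
`g' (F^(M n) q) = q`: `tnorm q (A ^ n v) = tnorm (F^(M n) q) (tmap (F^(M n)) q v)`. If `P q v = 0`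
this is `≤ C μ^(M n) tnorm q v`; if `P q v = v` then `tnorm q v ≤ C μ^(M n) tnorm q (A ^ n v)`
(`unstable_pow`). `μ^(M n) ≤ μ^n`. Finally compare `tnorm q` with the norm (`tnorm_equiv`): the
constant becomes `C b / a`.
-/

set_option autoImplicit false
set_option linter.unusedSectionVars false

open Set Filter Topology
open scoped UpperHalfPlane MatrixGroups

namespace Pool.Agent.ANO5.A2.Idx

variable [Fib]

open Pool.Agent.ANO5.A1 Pool.Agent.ANO5.A1.Idx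

variable {r : ℕ} {S : Fin r → ClosedSurface} {F : X r ≃ₜ X r}

theorem contDiffOn_T (hF : IsAnosovLift S F) (M : ℕ) {g : X r → X r}
    (hg : IsDeck S g) : ContDiffOn ℝ 1 (loc (g ∘ (F ^ M : X r ≃ₜ X r))) (dom r) :=
  contDiffOn_comp (deck_contDiffOn hg) (contDiffOn_pow hF.1 M)

private theorem tmap_T_Ano (h1 : ContDiffOn ℝ 1 (loc F) (dom r)) (M : ℕ) {g : X r → X r}
    (hg : IsDeck S g) (p : X r) : tmap (g ∘ (F ^ M : X r ≃ₜ X r)) p =
      tmap g ((F ^ M : X r ≃ₜ X r) p) ∘L tmap (F ^ M : X r ≃ₜ X r) p :=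
  tmap_comp (deck_contDiffOn hg) (contDiffOn_pow h1 M) p

theorem anosov_lift (hF : IsAnosovLift S F) {M : ℕ} (hM : 0 < M) {g : X r → X r}
    (hg : IsDeck S g) : ∃ P : X r → (E r →L[ℝ] E r), Continuous P ∧
      (∀ p, P p ∘L P p = P p) ∧
      (∀ p, P (g ((F ^ M) p)) ∘L tmap (g ∘ (F ^ M : X r ≃ₜ X r)) p =
        tmap (g ∘ (F ^ M : X r ≃ₜ X r)) p ∘L P p) ∧
      (∀ p, (tmap (g ∘ (F ^ M : X r ≃ₜ X r)) p).det ≠ 0) ∧
      ∀ q, g ((F ^ M) q) = q → ∃ C μ : ℝ, 0 < C ∧ 0 < μ ∧ μ < 1 ∧ ∀ (n : ℕ) (v : E r),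
        (P q v = 0 → ‖(tmap (g ∘ (F ^ M : X r ≃ₜ X r)) q ^ n) v‖ ≤ C * μ ^ n * ‖v‖) ∧
        (P q v = v → ‖v‖ ≤ C * μ ^ n * ‖(tmap (g ∘ (F ^ M : X r ≃ₜ X r)) q ^ n) v‖) := by
  have hT := contDiffOn_T hF M hg
  obtain ⟨h1, h2, hN, -, P, hPc, hPP, hPg, hPF, C, μ, hC, hμ, hμ1, hH⟩ := hF
  refine ⟨P, hPc, hPP, fun p => ?_, fun p => ?_, fun q hq => ?_⟩
  · rw [tmap_T_Ano h1 M hg, ← ContinuousLinearMap.comp_assoc, hPg g hg,
      ContinuousLinearMap.comp_assoc, pow_inv h1 hPF M p, ContinuousLinearMap.comp_assoc]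
  · rw [tmap_T_Ano h1 M hg]
    have h3 : (tmap g ((F ^ M : X r ≃ₜ X r) p) ∘L
        tmap (F ^ M : X r ≃ₜ X r) p).det = (tmap g ((F ^ M : X r ≃ₜ X r) p)).det *
        (tmap (F ^ M : X r ≃ₜ X r) p).det := LinearMap.det_comp _ _
    rw [h3]
    exact mul_ne_zero (det_tmap_deck hg _) (det_tmap_pow h1 h2 M p)
  · obtain ⟨a, b, ha, hb, hab⟩ := tnorm_equiv q
    refine ⟨C * b / a, μ, by positivity, hμ, hμ1, fun n v => ?_⟩
    obtain ⟨g', hg', h3⟩ := exists_deck_pow hN M hg n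
    set w : E r := tmap (F ^ (M * n) : X r ≃ₜ X r) q v with hw
    have h4 : (tmap (g ∘ (F ^ M : X r ≃ₜ X r)) q ^ n) v =
        tmap g' ((F ^ (M * n) : X r ≃ₜ X r) q) w := by
      rw [← tmap_iterate hT hq n, h3, tmap_T_Ano h1 (M * n) hg']
      rfl
    have h5 : g' ((F ^ (M * n) : X r ≃ₜ X r) q) = q := by
      have h6 := congrFun h3 q
      rw [Function.iterate_fixed hq] at h6
      exact h6.symm
    have h6 : tnorm q ((tmap (g ∘ (F ^ M : X r ≃ₜ X r)) q ^ n) v) =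
        tnorm ((F ^ (M * n) : X r ≃ₜ X r) q) w := by
      have h7 := deck_tnorm hg' ((F ^ (M * n) : X r ≃ₜ X r) q) w
      rw [h5, ← h4] at h7
      exact h7
    have hμn : μ ^ (M * n) ≤ μ ^ n :=
      pow_le_pow_of_le_one hμ.le hμ1.le (Nat.le_mul_of_pos_left n hM)
    have hμp : 0 < μ ^ n := pow_pos hμ n
    have hμq : 0 < μ ^ (M * n) := pow_pos hμ (M * n)
    have hv := hab v
    have hA := hab ((tmap (g ∘ (F ^ M : X r ≃ₜ X r)) q ^ n) v)
    set y : E r := (tmap (g ∘ (F ^ M : X r ≃ₜ X r)) q ^ n) v with hy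
    have key : ∀ s u : ℝ, 0 ≤ u → a * s ≤ C * μ ^ (M * n) * (b * u) →
        s ≤ C * b / a * μ ^ n * u := by
      intro s u hu h
      have h8 : C * b / a * μ ^ n * u = C * μ ^ n * (b * u) / a := by
        field_simp
      rw [h8, le_div_iff₀ ha, mul_comm s a]
      refine h.trans ?_
      have h9 : 0 ≤ b * u := by positivity
      exact mul_le_mul_of_nonneg_right (mul_le_mul_of_nonneg_left hμn hC.le) h9
    have hc0 : 0 ≤ C * μ ^ (M * n) := by positivity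
    refine ⟨fun h0 => ?_, fun h0 => ?_⟩
    · refine key _ _ (norm_nonneg v) ?_
      have h8 := (hH (M * n) q v).1 h0
      calc a * ‖y‖ ≤ tnorm q y := hA.1
        _ = tnorm ((F ^ (M * n) : X r ≃ₜ X r) q) w := h6
        _ ≤ C * μ ^ (M * n) * tnorm q v := h8
        _ ≤ C * μ ^ (M * n) * (b * ‖v‖) := mul_le_mul_of_nonneg_left hv.2 hc0
    · refine key _ _ (norm_nonneg y) ?_
      have h8 := unstable_pow h1 h2 hPF (c := C * μ ^ (M * n)) (n := M * n) (p := q)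
        (fun v' hv' => (hH (M * n) ((F ^ (M * n) : X r ≃ₜ X r) q) v').2 hv') h0
      calc a * ‖v‖ ≤ tnorm q v := hv.1
        _ ≤ C * μ ^ (M * n) * tnorm ((F ^ (M * n) : X r ≃ₜ X r) q) w := h8
        _ = C * μ ^ (M * n) * tnorm q y := by rw [h6]
        _ ≤ C * μ ^ (M * n) * (b * ‖y‖) := mul_le_mul_of_nonneg_left hA.2 hc0

end Pool.Agent.ANO5.A2.Idx
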