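import Pool.Agent.ANO5.A2.Idx.Deck

/-!
# ANO, module B: powers of the Anosov map (package IDX-ANOA)

* `pow_inv`: induction on `n`, `F ^ (n + 1) = F ∘ F ^ n`, `tmap_comp`.
* `exists_deck_pow`: induction on `n`. `F^M` normalises the deck group (induction on `M`), so
  `g F^M g_n F^(M n) = g (F^M g_n) F^(M n) = g g' F^M F^(M n)`.
* `tnorm_equiv`: `tnorm p v = ‖(fun i => (im p_i)⁻¹ v_i, v.2)‖`, and `v ↦ (fun i => (im p_i)⁻¹ v_i,
  v.2)` is an invertible linear map of a finite dimensional space (or estimate directly with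
  `pi_norm_le_iff`, `Prod.norm_def`, `norm_mul`).
* `unstable_pow`: put `v' = tmap (F ^ n) p v`. Then `P (F^n p) v' = v'` (`pow_inv`), and
  `tmap (F ^ n).symm (F^n p) v' = v` (`tmap_comp` for `(F ^ n).symm ∘ F ^ n = id`). Apply the
  hypothesis `h` at the point `F^n p` and the vector `v'`.
* `det_tmap`: the derivative of `(F ^ n).symm ∘ F ^ n = id`.
-/

set_option autoImplicit false
set_option linter.unusedSectionVars false

open Set Filter Topology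
open scoped UpperHalfPlane MatrixGroups

namespace Pool.Agent.ANO5.A2.Idx

variable [Fib]

open Pool.Agent.ANO5.A1 Pool.Agent.ANO5.A1.Idx

variable {r : ℕ} {S : Fin r → ClosedSurface} {F : X r ≃ₜ X r}

private theorem pow_succ_AnoA (n : ℕ) :
    ((F ^ (n + 1) : X r ≃ₜ X r) : X r → X r) = F ∘ (F ^ n : X r ≃ₜ X r) := by
  rw [pow_succ']
  rfl

private theorem pow_zero_AnoA : ((F ^ 0 : X r ≃ₜ X r) : X r → X r) = id := by
  rw [pow_zero]
  rfl

private theorem pow_add_AnoA (m n : ℕ) :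
    ((F ^ (m + n) : X r ≃ₜ X r) : X r → X r) =
      (F ^ m : X r ≃ₜ X r) ∘ (F ^ n : X r ≃ₜ X r) := by
  rw [pow_add]
  rfl

theorem pow_inv (h1 : ContDiffOn ℝ 1 (loc F) (dom r))
    {P : X r → (E r →L[ℝ] E r)} (hP : ∀ p, P (F p) ∘L tmap F p = tmap F p ∘L P p)
    (n : ℕ) (p : X r) : P ((F ^ n) p) ∘L tmap (F ^ n : X r ≃ₜ X r) p =
      tmap (F ^ n : X r ≃ₜ X r) p ∘L P p := by
  induction n with
  | zero =>
    have h0 : (F ^ 0 : X r ≃ₜ X r) p = p := congrFun pow_zero_AnoA p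
    rw [h0, pow_zero_AnoA, tmap_id]
    rfl
  | succ n ih =>
    have h0 : (F ^ (n + 1) : X r ≃ₜ X r) p = F ((F ^ n : X r ≃ₜ X r) p) :=
      congrFun (pow_succ_AnoA n) p
    rw [h0, pow_succ_AnoA, tmap_comp h1 (contDiffOn_pow h1 n), ← ContinuousLinearMap.comp_assoc,
      hP, ContinuousLinearMap.comp_assoc, ih, ContinuousLinearMap.comp_assoc]

private theorem norm_pow_AnoA
    (hN : ∀ g, IsDeck S g → ∃ g', IsDeck S g' ∧ F ∘ g = g' ∘ F) (M : ℕ)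
    {g : X r → X r} (hg : IsDeck S g) :
    ∃ g', IsDeck S g' ∧ (F ^ M : X r ≃ₜ X r) ∘ g = g' ∘ (F ^ M : X r ≃ₜ X r) := by
  induction M with
  | zero =>
    refine ⟨g, hg, ?_⟩
    rw [pow_zero_AnoA]
    rfl
  | succ M ih =>
    obtain ⟨g', hg', h1⟩ := ih
    obtain ⟨g'', hg'', h2⟩ := hN g' hg'
    refine ⟨g'', hg'', ?_⟩
    rw [pow_succ_AnoA, Function.comp_assoc, h1, ← Function.comp_assoc, h2, Function.comp_assoc]

theorem exists_deck_pow
    (hN : ∀ g, IsDeck S g → ∃ g', IsDeck S g' ∧ F ∘ g = g' ∘ F) (M : ℕ)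
    {g : X r → X r} (hg : IsDeck S g) (n : ℕ) :
    ∃ g', IsDeck S g' ∧ (g ∘ (F ^ M : X r ≃ₜ X r))^[n] = g' ∘ (F ^ (M * n) : X r ≃ₜ X r)
    := by
  induction n with
  | zero =>
    refine ⟨id, deck_id, ?_⟩
    rw [Nat.mul_zero, pow_zero_AnoA]
    rfl
  | succ n ih =>
    obtain ⟨g', hg', h1⟩ := ih
    obtain ⟨g'', hg'', h2⟩ := norm_pow_AnoA hN M hg'
    refine ⟨g ∘ g'', deck_comp hg hg'', ?_⟩
    have h3 : M * (n + 1) = M + M * n := by ring
    rw [Function.iterate_succ', h1, h3, pow_add_AnoA]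
    calc (g ∘ (F ^ M : X r ≃ₜ X r)) ∘ (g' ∘ (F ^ (M * n) : X r ≃ₜ X r))
        = g ∘ ((F ^ M : X r ≃ₜ X r) ∘ g') ∘ (F ^ (M * n) : X r ≃ₜ X r) := rfl
      _ = g ∘ (g'' ∘ (F ^ M : X r ≃ₜ X r)) ∘ (F ^ (M * n) : X r ≃ₜ X r) := by rw [h2]
      _ = _ := rfl

theorem tnorm_equiv (p : X r) : ∃ a b : ℝ, 0 < a ∧ 0 < b ∧
    ∀ v : E r, a * ‖v‖ ≤ tnorm p v ∧ tnorm p v ≤ b * ‖v‖ := by
  obtain ⟨c, hc, h⟩ := Dyn.tnorm_le (K := {p}) isCompact_singleton
  obtain ⟨c', hc', h'⟩ := Dyn.le_tnorm (K := {p}) isCompact_singleton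
  refine ⟨c'⁻¹, c, inv_pos.2 hc', hc, fun v => ⟨?_, h p (mem_singleton p) v⟩⟩
  rw [inv_mul_le_iff₀ hc']
  exact h' p (mem_singleton p) v

private theorem symm_comp_AnoA (G : X r ≃ₜ X r) :
    (G.symm : X r → X r) ∘ (G : X r → X r) = id :=
  funext fun p => G.symm_apply_apply p

private theorem tmap_symm_AnoA (h1 : ContDiffOn ℝ 1 (loc F) (dom r))
    (h2 : ContDiffOn ℝ 1 (loc F.symm) (dom r)) (n : ℕ) (p : X r) :
    tmap (F ^ n : X r ≃ₜ X r).symm ((F ^ n : X r ≃ₜ X r) p) ∘L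
      tmap (F ^ n : X r ≃ₜ X r) p = ContinuousLinearMap.id ℝ _ := by
  rw [← tmap_comp (contDiffOn_pow_symm h2 n) (contDiffOn_pow h1 n), symm_comp_AnoA, tmap_id]

theorem unstable_pow (h1 : ContDiffOn ℝ 1 (loc F) (dom r))
    (h2 : ContDiffOn ℝ 1 (loc F.symm) (dom r))
    {P : X r → (E r →L[ℝ] E r)} (hP : ∀ p, P (F p) ∘L tmap F p = tmap F p ∘L P p)
    {c : ℝ} {n : ℕ} {p : X r}
    (h : ∀ v : E r, P ((F ^ n) p) v = v → tnorm ((F ^ n).symm ((F ^ n) p))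
      (tmap (F ^ n : X r ≃ₜ X r).symm ((F ^ n) p) v) ≤ c * tnorm ((F ^ n) p) v)
    {v : E r} (hv : P p v = v) :
    tnorm p v ≤ c * tnorm ((F ^ n) p) (tmap (F ^ n : X r ≃ₜ X r) p v) := by
  have h3 : P ((F ^ n : X r ≃ₜ X r) p) (tmap (F ^ n : X r ≃ₜ X r) p v) =
      tmap (F ^ n : X r ≃ₜ X r) p v := by
    have h4 := congrArg (fun L : E r →L[ℝ] E r => L v) (pow_inv h1 hP n p)
    simp only [ContinuousLinearMap.comp_apply] at h4
    rw [h4, hv]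
  have h5 := h _ h3
  have h6 : tmap (F ^ n : X r ≃ₜ X r).symm ((F ^ n : X r ≃ₜ X r) p)
      (tmap (F ^ n : X r ≃ₜ X r) p v) = v := by
    have h7 := congrArg (fun L : E r →L[ℝ] E r => L v) (tmap_symm_AnoA h1 h2 n p)
    simpa only [ContinuousLinearMap.comp_apply, ContinuousLinearMap.id_apply] using h7
  rw [h6, Homeomorph.symm_apply_apply] at h5
  exact h5

private theorem det_ne_AnoA {A B : E r →L[ℝ] E r}
    (h : A ∘L B = ContinuousLinearMap.id ℝ _) : B.det ≠ 0 := by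
  intro h0
  have h1 : (A ∘L B).det = 1 := by
    rw [h]
    exact LinearMap.det_id
  have h2 : (A ∘L B).det = A.det * B.det := LinearMap.det_comp _ _
  rw [h2, h0, mul_zero] at h1
  exact zero_ne_one h1

theorem det_tmap_pow (h1 : ContDiffOn ℝ 1 (loc F) (dom r))
    (h2 : ContDiffOn ℝ 1 (loc F.symm) (dom r)) (n : ℕ) (p : X r) :
    (tmap (F ^ n : X r ≃ₜ X r) p).det ≠ 0 :=
  det_ne_AnoA (tmap_symm_AnoA h1 h2 n p)

theorem det_tmap_deck {g : X r → X r} (hg : IsDeck S g) (p : X r) :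
    (tmap g p).det ≠ 0 := by
  obtain ⟨h, hh, h1, -⟩ := deck_inv hg
  have h2 : h ∘ g = id := funext h1
  refine det_ne_AnoA (A := tmap h (g p)) ?_
  rw [← tmap_comp (deck_contDiffOn hh) (deck_contDiffOn hg), h2, tmap_id]

end Pool.Agent.ANO5.A2.Idx
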