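import Pool.Agent.ANO5.A1.Idx.Calc
import Pool.Agent.ANO5.A2.Dyn.DeckC

/-!
# ANO5, module B: deck transformations (package IDX-DECK)

The same facts as in `Dyn/Deck.lean`, `Dyn/DeckC.lean`.
-/

set_option autoImplicit false
set_option linter.unusedSectionVars false

open Set Filter Topology
open scoped UpperHalfPlane MatrixGroups

namespace Pool.Agent.ANO5.A2.Idx

variable [Fib]

open Pool.Agent.ANO5.A1 Pool.Agent.ANO5.A1.Idx

variable {r : ℕ} {S : Fin r → ClosedSurface} {g g' : X r → X r}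

theorem deck_id : IsDeck S id := Dyn.isDeck_id

theorem deck_comp (h : IsDeck S g) (h' : IsDeck S g') : IsDeck S (g ∘ g') :=
  Dyn.IsDeck.comp h h'

theorem deck_inv (h : IsDeck S g) : ∃ h, IsDeck S h ∧ (∀ p, h (g p) = p) ∧
    ∀ p, g (h p) = p := Dyn.IsDeck.inv h

theorem deck_dist (h : IsDeck S g) (p q : X r) : dist (g p) (g q) = dist p q :=
  (Dyn.IsDeck.isometry h).dist_eq p q

theorem deck_continuous (h : IsDeck S g) : Continuous g :=
  (Dyn.IsDeck.isometry h).continuous

theorem deck_contDiffOn (h : IsDeck S g) : ContDiffOn ℝ 1 (loc g) (dom r) :=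
  Dyn.IsDeck.contDiffOn h

theorem deck_tnorm (h : IsDeck S g) (p : X r) (v : E r) :
    tnorm (g p) (tmap g p v) = tnorm p v := Dyn.IsDeck.tnorm h p v

end Pool.Agent.ANO5.A2.Idx
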