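import Pool.Agent.ANO5.A2.Idx.Deck

/-!
# ANO, module B: bounded distance (package IDX-NEAR)

* `deck_cocompact`: compact sets `K_i ⊆ ℍ` from `FlatSurface.cocompact`, and
  `K = {p | (∀ i, p.1 i ∈ K_i) ∧ ∀ j, p.2 j ∈ [0, 1]}` (`isCompact_univ_pi`, `IsCompact.prod`;
  translate `p.2 j` by `- ⌊p.2 j⌋`).
* `near`: `p ↦ dist (G p) (G₀ p)` is continuous, so bounded on `K`; if `h p ∈ K` then
  `G (h p) = h' (G p)`, `G₀ (h p) = h' (G₀ p)` with the same deck transformation `h'`, and `h'` is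
  an isometry.
* `model_continuous`: `f` is a homeomorphism, `Matrix.mulVec` is continuous.
-/

set_option autoImplicit false
set_option linter.unusedSectionVars false

open Set Filter Topology
open scoped UpperHalfPlane MatrixGroups

namespace Pool.Agent.ANO5.A2.Idx

variable [Fib]

open Pool.Agent.ANO5.A1 Pool.Agent.ANO5.A1.Idx

variable {r : ℕ} {S : Fin r → ClosedSurface}

theorem deck_cocompact (S : Fin r → ClosedSurface) : ∃ K : Set (X r), IsCompact K ∧
    ∀ p, ∃ g, IsDeck S g ∧ g p ∈ K := Dyn.deck_cocompact S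

theorem near {G₀ G : X r → X r} (h : Homotopic S G₀ G) (h₀ : Continuous G₀)
    (hG : Continuous G) : ∃ C : ℝ, ∀ p, dist (G p) (G₀ p) ≤ C := by
  obtain ⟨K, hK, hKg⟩ := deck_cocompact S
  obtain ⟨C, hC⟩ := hK.exists_bound_of_continuousOn (f := fun p => dist (G p) (G₀ p))
    (hG.dist h₀).continuousOn
  refine ⟨C, fun p => ?_⟩
  obtain ⟨g, hg, hgp⟩ := hKg p
  obtain ⟨g', hg', e₀, e⟩ := h g hg
  have h1 : dist (G (g p)) (G₀ (g p)) ≤ C := by
    have h2 := hC (g p) hgp
    rwa [Real.norm_of_nonneg dist_nonneg] at h2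
  have h3 : G (g p) = g' (G p) := congrFun e p
  have h4 : G₀ (g p) = g' (G₀ p) := congrFun e₀ p
  rwa [h3, h4, deck_dist hg'] at h1

end Pool.Agent.ANO5.A2.Idx
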