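import Pool.Agent.ANO5.A2.Idx.Ano
import Pool.Agent.ANO.Idx.SignC
import Pool.Agent.SmoothDegree.Defs

/-!
# ANO, module B: all fixed points have the same sign (package IDX-SGN)

`T = g ∘ F^M`, `P` from `anosov_lift`. Let `T q = q`, `T q' = q'`. Choose `R` such that the compact
convex set `K = toE '' closedBall q R` contains the segment `J = [toE q, toE q']` (it is contained
in `dom r`, compact) and `loc T '' J` (compact, contained in `dom r`); use `compact_ball`,
`convex_ball`, and that `ofE '' (J ∪ loc T '' J)` is bounded. Apply `sign_const` to `K`,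
`x ↦ P (ofE x)`, `loc T`, `x ↦ tmap T (ofE x)`, `toE q`, `toE q'` (`loc T (toE p) = toE (T p)`).
With `lin_sign` and `fderiv_id_sub` the sign of `det (fderiv (x - loc T x))` is the same at `q` and
`q'`; it is `1` or `-1` (`jacobianSign` is the sign of the determinant as an integer). For `σ` take
the sign at one fixed point, or `1` if there is none.
-/

set_option autoImplicit false
set_option linter.unusedSectionVars false

open Set Filter Topology
open Pool.Agent.SmoothDegree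
open scoped UpperHalfPlane MatrixGroups

namespace Pool.Agent.ANO5.A2.Idx

variable [Fib]

open Pool.Agent.ANO5.A1 Pool.Agent.ANO5.A1.Idx Pool.Agent.ANO.Idx

variable {r : ℕ} {S : Fin r → ClosedSurface} {F : X r ≃ₜ X r}

private theorem same_Sgn {T : X r → X r} (hT : ContDiffOn ℝ 1 (loc T) (dom r))
    {P : X r → (E r →L[ℝ] E r)} (hPc : Continuous P) (hPP : ∀ p, P p ∘L P p = P p)
    (hcomm : ∀ p, P (T p) ∘L tmap T p = tmap T p ∘L P p) (hdet : ∀ p, (tmap T p).det ≠ 0)
    {q q' : X r} (hq : T q = q) (hq' : T q' = q') :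
    SignType.sign ((1 - P q) + tmap T q ∘L P q).det =
        SignType.sign ((1 - P q') + tmap T q' ∘L P q').det ∧
      SignType.sign (1 - (2 : ℝ) • P q).det = SignType.sign (1 - (2 : ℝ) • P q').det := by
  have hJ : segment ℝ (toE q) (toE q') ⊆ dom r :=
    convex_dom.segment_subset (toE_mem q) (toE_mem q')
  have hJc : IsCompact (segment ℝ (toE q) (toE q')) := by
    rw [segment_eq_image']
    refine isCompact_Icc.image ?_
    fun_prop
  have hTJ : ContinuousOn (loc T) (segment ℝ (toE q) (toE q')) := hT.continuousOn.mono hJ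
  have hU : segment ℝ (toE q) (toE q') ∪ loc T '' segment ℝ (toE q) (toE q') ⊆ dom r := by
    refine union_subset hJ ?_
    rintro _ ⟨x, -, rfl⟩
    exact loc_mem T x
  have hc : IsCompact (ofE '' (segment ℝ (toE q) (toE q') ∪
      loc T '' segment ℝ (toE q) (toE q')) : Set (X r)) :=
    (hJc.union (hJc.image_of_continuousOn hTJ)).image_of_continuousOn (continuousOn_ofE.mono hU)
  obtain ⟨R, hR⟩ := subset_box q hc
  have hmem : ∀ x ∈ segment ℝ (toE q) (toE q') ∪ loc T '' segment ℝ (toE q) (toE q'),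
      x ∈ toE '' box q R := fun x hx =>
    ⟨ofE x, hR ⟨x, hx, rfl⟩, toE_ofE (hU hx)⟩
  have hKd : toE '' box q R ⊆ dom r := by
    rintro _ ⟨p, -, rfl⟩
    exact toE_mem p
  have h := sign_const (compact_image_box q R) (convex_image_box q R) (P := fun x => P (ofE x))
    (hPc.comp_continuousOn (continuousOn_ofE.mono hKd)) (fun x _ => hPP (ofE x)) (T := loc T)
    (A := fun x => tmap T (ofE x)) (q := toE q) (q' := toE q')
    (hmem _ (Or.inl (left_mem_segment ℝ _ _))) (hmem _ (Or.inl (right_mem_segment ℝ _ _)))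
    hTJ (fun x hx => hmem _ (Or.inr ⟨x, hx, rfl⟩))
    ((continuous_tmap hT).comp_continuousOn (continuousOn_ofE.mono hJ))
    (fun x _ => hdet (ofE x)) (fun x _ => ?_) (by rw [loc_toE, hq]) (by rw [loc_toE, hq'])
  · beta_reduce at h
    rw [ofE_toE, ofE_toE] at h
    exact h
  · show P (ofE (toE (T (ofE x)))) ∘L tmap T (ofE x) = tmap T (ofE x) ∘L P (ofE x)
    rw [ofE_toE]
    exact hcomm _

private theorem natAbs_Sgn {a : ℝ} (ha : a ≠ 0) : ((SignType.sign a : ℤ)).natAbs = 1 := by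
  rcases lt_or_gt_of_ne ha with h | h
  · rw [sign_neg h]
    rfl
  · rw [sign_pos h]
    rfl

theorem exists_sign (hF : IsAnosovLift S F) {M : ℕ} (hM : 0 < M) {g : X r → X r}
    (hg : IsDeck S g) : ∃ σ : ℤ, σ.natAbs = 1 ∧ ∀ q, g ((F ^ M) q) = q →
      (fderiv ℝ (fun x => x - loc (g ∘ (F ^ M : X r ≃ₜ X r)) x) (toE q)).det ≠ 0 ∧
      jacobianSign (fun x => x - loc (g ∘ (F ^ M : X r ≃ₜ X r)) x) (toE q) = σ := by
  obtain ⟨P, hPc, hPP, hcomm, hdet, hhyp⟩ := anosov_lift hF hM hg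
  have hT := contDiffOn_T hF M hg
  have h1 : ∀ q, g ((F ^ M) q) = q →
      (1 - tmap (g ∘ (F ^ M : X r ≃ₜ X r)) q).det ≠ 0 ∧
      SignType.sign (1 - tmap (g ∘ (F ^ M : X r ≃ₜ X r)) q).det =
        SignType.sign (1 - (2 : ℝ) • P q).det *
          SignType.sign ((1 - P q) + tmap (g ∘ (F ^ M : X r ≃ₜ X r)) q ∘L P q).det := by
    intro q hq
    obtain ⟨C, μ, hC, hμ, hμ1, h⟩ := hhyp q hq
    have h2 := hcomm q
    rw [hq] at h2
    exact lin_sign (hPP q) h2 (hdet q) hC hμ hμ1 h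
  have h2 : ∀ q q', g ((F ^ M) q) = q → g ((F ^ M) q') = q' →
      SignType.sign (1 - tmap (g ∘ (F ^ M : X r ≃ₜ X r)) q).det =
        SignType.sign (1 - tmap (g ∘ (F ^ M : X r ≃ₜ X r)) q').det := by
    intro q q' hq hq'
    obtain ⟨e1, e2⟩ := same_Sgn (T := g ∘ (F ^ M : X r ≃ₜ X r)) hT hPc hPP hcomm hdet hq hq'
    rw [(h1 q hq).2, (h1 q' hq').2, e1, e2]
  by_cases h : ∃ q, g ((F ^ M) q) = q
  · obtain ⟨q₀, hq₀⟩ := h
    refine ⟨(SignType.sign (1 - tmap (g ∘ (F ^ M : X r ≃ₜ X r)) q₀).det : ℤ),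
      natAbs_Sgn (h1 q₀ hq₀).1, fun q hq => ?_⟩
    unfold jacobianSign
    rw [fderiv_id_sub hT q]
    exact ⟨(h1 q hq).1, by rw [h2 q q₀ hq hq₀]⟩
  · exact ⟨1, rfl, fun q hq => absurd ⟨q, hq⟩ h⟩

end Pool.Agent.ANO5.A2.Idx
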